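import Mathlib

/-!
# The norm can be weakly Baire measurable on a dense subspace but not on the whole space

Let `T = {0,1}^ℕ`, let `Λ` be the set of the finite `0-1`-sequences and, in the Hilbert space
`ℓ_2(Λ ⊔ T)`, let `v_t = ∑_n 2^{-n} e_{t|n} + e_t`. Put `A = span {v_t}` and let `X` be the closure of
`A`. On `A` one has `‖x‖² = ∑_{s ∈ Λ} |x_s|² + lim_n ∑_{s ∈ {0,1}^n} |2^n x_s|²`, so that the norm is
relatively weakly Baire measurable on `A`. But `e_t ∈ X` for all `t`, and every weakly Baire
measurable set of `X` contains either `0` and `e_t` or none of them, for all `t` outside a countable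
set.
-/

set_option autoImplicit false

namespace Pool.Agent.Results.MP_51339e_an.DenseSubspace

open MeasureTheory Filter Topology

/-- The Baire `σ`-algebra of the weak topology of `X`: the smallest `σ`-algebra for which all weakly
continuous functions `X → ℝ` are measurable. -/
@[reducible] def Ba (X : Type*) [NormedAddCommGroup X] [NormedSpace ℝ X] : MeasurableSpace X :=
  ⨆ f : {f : X → ℝ // Continuous (f ∘ (toWeakSpace ℝ X).symm)}, (borel ℝ).comap f.1

/-- The function `f` is relatively `Ba(X, w)`-measurable on `A`: its restriction to `A` is measurable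
for the trace `σ`-algebra. -/
def RelativelyMeasurable {X : Type*} [NormedAddCommGroup X] [NormedSpace ℝ X] (f : X → ℝ)
    (A : Set X) : Prop :=
  Measurable[(Ba X).comap (Subtype.val : A → X), borel ℝ] fun x : A => f x

/-! ### The Hilbert space -/

/-- The index set. -/
abbrev Idx : Type := (Σ n, (Fin n → Bool)) ⊕ (ℕ → Bool)

/-- The Hilbert space. -/
abbrev H : Type := lp (fun _ : Idx => ℝ) 2

/-- The initial segments. -/
def pre (n : ℕ) (t : ℕ → Bool) : Fin n → Bool := fun i => t i

/-- The unit vector `e_t`. -/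
noncomputable def e (t : ℕ → Bool) : H := by
  classical exact lp.single 2 (Sum.inr t) 1

open Classical in
/-- The coordinates of the first part of `v_t`. -/
noncomputable def hf (t : ℕ → Bool) : Idx → ℝ
  | Sum.inl s => if s.2 = pre s.1 t then (1 / 2) ^ s.1 else 0
  | Sum.inr _ => 0

theorem pre_inj (t : ℕ → Bool) :
    Function.Injective (fun n => (Sum.inl ⟨n, pre n t⟩ : Idx)) := by
  intro n m h
  exact congrArg Sigma.fst (Sum.inl_injective h)

theorem hf_pre (t : ℕ → Bool) (n : ℕ) : hf t (Sum.inl ⟨n, pre n t⟩) = (1 / 2) ^ n := by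
  simp [hf]

theorem hf_zero (t : ℕ → Bool) (i : Idx)
    (hi : i ∉ Set.range (fun n => (Sum.inl ⟨n, pre n t⟩ : Idx))) : hf t i = 0 := by
  rcases i with ⟨n, s⟩ | t'
  · have : s ≠ pre n t := by
      rintro rfl
      exact hi ⟨n, rfl⟩
    simp [hf, this]
  · rfl

theorem hf_mem (t : ℕ → Bool) : Memℓp (hf t) 2 := by
  apply memℓp_gen
  have e : (2 : ENNReal).toReal = ((2 : ℕ) : ℝ) := by norm_num
  simp only [e, Real.rpow_natCast]
  rw [← (pre_inj t).summable_iff]
  · have : ((fun i => ‖hf t i‖ ^ 2) ∘ fun n => (Sum.inl ⟨n, pre n t⟩ : Idx)) =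
        fun n : ℕ => ((1 / 4 : ℝ)) ^ n := by
      funext n
      simp only [Function.comp_apply, hf_pre, norm_pow]
      rw [← pow_mul, mul_comm, pow_mul]
      norm_num
    rw [this]
    exact summable_geometric_of_lt_one (by norm_num) (by norm_num)
  · intro i hi
    rw [hf_zero t i hi]
    simp

/-- The first part of `v_t`. -/
noncomputable def h (t : ℕ → Bool) : H := ⟨hf t, hf_mem t⟩

/-- The vector `v_t`. -/
noncomputable def v (t : ℕ → Bool) : H := h t + e t

theorem h_apply (t : ℕ → Bool) (i : Idx) : h t i = hf t i := rfl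

open Classical in
theorem e_apply (t : ℕ → Bool) (i : Idx) : e t i = if i = Sum.inr t then 1 else 0 := by
  unfold e
  rw [lp.single_apply]
  by_cases hi : i = Sum.inr t
  · subst hi; simp
  · simp [hi]

theorem e_inr (t : ℕ → Bool) : e t (Sum.inr t) = 1 := by simp [e_apply]

open Classical in
theorem v_inl (t : ℕ → Bool) (s : Σ n, (Fin n → Bool)) :
    v t (Sum.inl s) = if s.2 = pre s.1 t then (1 / 2) ^ s.1 else 0 := by
  unfold v
  rw [lp.coeFn_add, Pi.add_apply, h_apply, e_apply]
  simp [hf]

open Classical in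
theorem v_inr (t t' : ℕ → Bool) : v t (Sum.inr t') = if t' = t then 1 else 0 := by
  unfold v
  rw [lp.coeFn_add, Pi.add_apply, h_apply, e_apply]
  by_cases ht : t' = t <;> simp [hf, ht]

theorem inner_e (t : ℕ → Bool) (x : H) : inner ℝ (e t) x = x (Sum.inr t) := by
  classical
  unfold e
  rw [lp.inner_single_left]
  simp

theorem inner_h (t : ℕ → Bool) (x : H) :
    inner ℝ (h t) x = ∑' n : ℕ, x (Sum.inl ⟨n, pre n t⟩) * (1 / 2) ^ n := by
  rw [lp.inner_eq_tsum, ← (pre_inj t).tsum_eq]
  · congr 1
    funext n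
    rw [h_apply, hf_pre]
    simp [mul_comm]
  · intro i hi
    by_contra hne
    apply hi
    show inner ℝ (hf t i) (x i) = 0
    rw [hf_zero t i hne, inner_zero_left]

theorem orthonormal_e : Orthonormal ℝ e := by
  classical
  rw [orthonormal_iff_ite]
  intro t t'
  rw [inner_e, e_apply]
  by_cases ht : t = t'
  · simp [ht]
  · simp [ht]

/-! ### The subspace -/

/-- The span of the `v_t`. -/
noncomputable def A₀ : Submodule ℝ H := Submodule.span ℝ (Set.range v)

/-- The closure of the span. -/
noncomputable abbrev X : Type := A₀.topologicalClosure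

theorem e_mem (t : ℕ → Bool) : e t ∈ A₀.topologicalClosure := by
  classical
  rw [← Submodule.orthogonal_orthogonal_eq_closure, Submodule.mem_orthogonal]
  intro w hw
  rw [Submodule.mem_orthogonal] at hw
  -- the relation
  have rel : ∀ t, inner ℝ (h t) w + w (Sum.inr t) = 0 := by
    intro t
    have := hw (v t) (Submodule.subset_span ⟨t, rfl⟩)
    unfold v at this
    rwa [inner_add_left, inner_e] at this
  -- the approximating sequence
  let τ : ℕ → (ℕ → Bool) := fun k => Function.update t k (!t k)
  have hτ : Function.Injective τ := by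
    intro k l hkl
    by_contra hne
    have h1 : τ k k = τ l k := by rw [hkl]
    simp only [τ, Function.update_self, Function.update_of_ne hne] at h1
    revert h1
    cases t k <;> simp
  have lim1 : Tendsto (fun k => inner ℝ (h (τ k)) w) atTop (𝓝 (inner ℝ (h t) w)) := by
    simp_rw [inner_h]
    refine tendsto_tsum_of_dominated_convergence (bound := fun n => ‖w‖ * (1 / 2) ^ n) ?_ ?_ ?_
    · exact (summable_geometric_of_lt_one (by norm_num) (by norm_num)).mul_left _
    · intro n
      apply tendsto_const_nhds.congr'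
      filter_upwards [eventually_ge_atTop n] with k hk
      have : pre n (τ k) = pre n t := by
        funext i
        have hi : (i : ℕ) ≠ k := by have := i.2; omega
        simp only [pre, τ]
        exact Function.update_of_ne hi _ _
      rw [this]
    · filter_upwards with k n
      rw [norm_mul]
      have h1 : ‖w (Sum.inl ⟨n, pre n (τ k)⟩)‖ ≤ ‖w‖ := lp.norm_apply_le_norm (by norm_num) w _
      have h2 : ‖((1 : ℝ) / 2) ^ n‖ = (1 / 2) ^ n := by
        rw [Real.norm_of_nonneg (by positivity)]
      rw [h2]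
      exact mul_le_mul_of_nonneg_right h1 (by positivity)
  have lim2 : Tendsto (fun k => w (Sum.inr (τ k))) atTop (𝓝 0) := by
    have h1 := (orthonormal_e.inner_products_summable w).tendsto_cofinite_zero
    have h2 : Tendsto (fun t => ‖inner ℝ (e t) w‖) cofinite (𝓝 0) := by
      have := h1.sqrt
      simpa [Real.sqrt_sq_eq_abs] using this
    have h3 : Tendsto (fun t => inner ℝ (e t) w) cofinite (𝓝 0) :=
      tendsto_zero_iff_norm_tendsto_zero.2 h2
    simp_rw [inner_e] at h3
    have h4 : Tendsto τ atTop cofinite := by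
      rw [← Nat.cofinite_eq_atTop]
      exact hτ.tendsto_cofinite
    exact h3.comp h4
  have lim3 : Tendsto (fun k => inner ℝ (h (τ k)) w + w (Sum.inr (τ k))) atTop
      (𝓝 (inner ℝ (h t) w + 0)) := lim1.add lim2
  simp_rw [rel] at lim3
  have h5 := tendsto_nhds_unique lim3 tendsto_const_nhds
  rw [real_inner_comm, inner_e]
  have := rel t
  rw [add_zero] at h5
  rw [h5, zero_add] at this
  exact this

/-- The unit vectors in `X`. -/
noncomputable def E (t : ℕ → Bool) : X := ⟨e t, e_mem t⟩

instance : CompleteSpace X := A₀.isClosed_topologicalClosure.completeSpace_coe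

theorem orthonormal_E : Orthonormal ℝ E := by
  have : Orthonormal ℝ (A₀.topologicalClosure.subtypeₗᵢ ∘ E) := orthonormal_e
  exact (LinearIsometry.orthonormal_comp_iff (v := E) A₀.topologicalClosure.subtypeₗᵢ).1 this

/-- The unit vectors tend weakly to zero. -/
theorem tendsto_E : Tendsto (fun t => toWeakSpace ℝ X (E t)) cofinite
    (𝓝 (toWeakSpace ℝ X 0)) := by
  refine (WeakBilin.tendsto_iff_forall_eval_tendsto (topDualPairing ℝ X).flip ?_).2 ?_
  · intro x y hxy
    have : ∀ φ : StrongDual ℝ X, φ x = φ y := fun φ => DFunLike.congr_fun hxy φ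
    exact (SeparatingDual.eq_iff_forall_dual_eq (R := ℝ)).2 this
  · intro φ
    obtain ⟨y, rfl⟩ := (InnerProductSpace.toDual ℝ X).surjective φ
    have h1 := (orthonormal_E.inner_products_summable y).tendsto_cofinite_zero
    have h2 : Tendsto (fun t => ‖inner ℝ (E t) y‖) cofinite (𝓝 0) := by
      have := h1.sqrt
      simpa [Real.sqrt_sq_eq_abs] using this
    have h3 : Tendsto (fun t => inner ℝ (E t) y) cofinite (𝓝 0) :=
      tendsto_zero_iff_norm_tendsto_zero.2 h2
    have h4 : ∀ x : X, ((topDualPairing ℝ X).flip (toWeakSpace ℝ X x))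
        (InnerProductSpace.toDual ℝ X y) = inner ℝ x y := by
      intro x
      rw [real_inner_comm]
      rfl
    have h5 : Tendsto (fun t => ((topDualPairing ℝ X).flip (toWeakSpace ℝ X (E t)))
        (InnerProductSpace.toDual ℝ X y)) cofinite
        (𝓝 (((topDualPairing ℝ X).flip (toWeakSpace ℝ X 0))
        (InnerProductSpace.toDual ℝ X y))) := by
      rw [h4, inner_zero_left]
      simp_rw [h4]
      exact h3
    exact h5

/-- Weakly Baire measurable sets cannot separate `0` from more than countably many `e_t`. -/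
theorem countable_of_measurable (S : Set X) (hS : MeasurableSet[Ba X] S) :
    {t | ¬ (E t ∈ S ↔ (0 : X) ∈ S)}.Countable := by
  let m' : MeasurableSpace X :=
    { MeasurableSet' := fun S => {t | ¬ (E t ∈ S ↔ (0 : X) ∈ S)}.Countable
      measurableSet_empty := by simp
      measurableSet_compl := by
        intro S hS
        refine Set.Countable.mono (fun t ht => ?_) hS
        intro ht'
        exact ht (not_congr ht')
      measurableSet_iUnion := by
        intro f hf
        refine (Set.countable_iUnion hf).mono fun t ht => ?_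
        rw [Set.mem_iUnion]
        by_contra hne
        apply ht
        simp only [Set.mem_iUnion]
        refine exists_congr fun i => ?_
        by_contra h'
        exact hne ⟨i, h'⟩ }
  have hle : Ba X ≤ m' := by
    apply iSup_le
    rintro ⟨f, hf⟩
    rintro _ ⟨U, -, rfl⟩
    show {t | ¬ (E t ∈ f ⁻¹' U ↔ (0 : X) ∈ f ⁻¹' U)}.Countable
    have lim : Tendsto (fun t => f (E t)) cofinite (𝓝 (f 0)) := by
      have h1 := (hf.tendsto (toWeakSpace ℝ X 0)).comp tendsto_E
      have h2 : (f ∘ (toWeakSpace ℝ X).symm) ∘ (fun t => toWeakSpace ℝ X (E t)) =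
          fun t => f (E t) := by
        funext t
        simp
      rw [h2] at h1
      simpa using h1
    have sub : {t | ¬ (E t ∈ f ⁻¹' U ↔ (0 : X) ∈ f ⁻¹' U)} ⊆
        ⋃ n : ℕ, {t | ¬ dist (f (E t)) (f 0) < 1 / ((n : ℝ) + 1)} := by
      intro t ht
      have hne : f (E t) ≠ f 0 := by
        intro he
        apply ht
        simp only [Set.mem_preimage, he]
      obtain ⟨n, hn⟩ := exists_nat_one_div_lt (dist_pos.2 hne)
      rw [Set.mem_iUnion]
      exact ⟨n, not_lt.2 hn.le⟩
    refine (Set.countable_iUnion fun n => ?_).mono sub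
    have := lim.eventually (Metric.ball_mem_nhds (f 0) (ε := 1 / ((n : ℝ) + 1)) (by positivity))
    exact (Filter.eventually_cofinite.1 this).countable
  exact hle S hS

theorem not_measurable : ¬ Measurable[Ba X, borel ℝ] fun x : X => ‖x‖ := by
  intro hm
  have h1 : MeasurableSet[Ba X] ((fun x : X => ‖x‖) ⁻¹' Set.Ioi (1 / 2)) :=
    hm (measurableSet_Ioi)
  have h2 := countable_of_measurable _ h1
  have h3 : {t | ¬ (E t ∈ ((fun x : X => ‖x‖) ⁻¹' Set.Ioi (1 / 2)) ↔
      (0 : X) ∈ ((fun x : X => ‖x‖) ⁻¹' Set.Ioi (1 / 2)))} = Set.univ := by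
    refine Set.eq_univ_of_forall fun t => ?_
    intro h
    have e1 : ‖E t‖ = 1 := orthonormal_E.1 t
    have e2 : (1 / 2 : ℝ) < ‖E t‖ := by rw [e1]; norm_num
    have e3 : (1 / 2 : ℝ) < ‖(0 : X)‖ := h.1 e2
    rw [norm_zero] at e3
    norm_num at e3
  rw [h3, Set.countable_univ_iff] at h2
  obtain ⟨g, hg⟩ := exists_surjective_nat (ℕ → Bool)
  obtain ⟨n, hn⟩ := hg fun k => !(g k k)
  have := congrFun hn n
  simp at this

/-! ### Measurability on the dense subspace -/

/-- The dense subspace of `X`. -/
noncomputable def A : Submodule ℝ X := A₀.comap A₀.topologicalClosure.subtype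

theorem dense_A : Dense (A : Set X) := by
  intro x
  rw [closure_subtype]
  have h1 : ((fun y : X => (y : H)) '' (A : Set X)) = (A₀ : Set H) := by
    ext y
    constructor
    · rintro ⟨z, hz, rfl⟩
      exact hz
    · intro hy
      exact ⟨⟨y, A₀.le_topologicalClosure hy⟩, hy, rfl⟩
  have h2 : (x : H) ∈ closure (A₀ : Set H) := x.2
  rw [← h1] at h2
  exact h2

/-- The coordinate functionals are weakly Baire measurable. -/
theorem measurable_coord (i : Idx) : Measurable[Ba X, borel ℝ] fun x : X => (x : H) i := by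
  have hc : Continuous ((fun x : X => (x : H) i) ∘ (toWeakSpace ℝ X).symm) := by
    let φ : StrongDual ℝ X := (lp.evalCLM ℝ (fun _ : Idx => ℝ) 2 i).comp A₀.topologicalClosure.subtypeL
    exact WeakBilin.eval_continuous (topDualPairing ℝ X).flip φ
  have : (borel ℝ).comap (fun x : X => (x : H) i) ≤ Ba X :=
    le_iSup (fun f : {f : X → ℝ // Continuous (f ∘ (toWeakSpace ℝ X).symm)} =>
      (borel ℝ).comap f.1) ⟨_, hc⟩
  exact measurable_iff_comap_le.2 this

/-- The limit. -/
noncomputable def Lim (x : H) : ENNReal :=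
  limsup (fun n : ℕ => ∑ s : Fin n → Bool,
    ENNReal.ofReal ((2 ^ n * x (Sum.inl ⟨n, s⟩)) ^ 2)) atTop

/-- The square of the norm on the dense subspace. -/
noncomputable def Q (x : H) : ENNReal :=
  ∑' s : Σ n, (Fin n → Bool), ENNReal.ofReal (x (Sum.inl s) ^ 2) + Lim x

theorem measurable_Q : Measurable[Ba X, borel ENNReal] fun x : X => Q x := by
  let _ : MeasurableSpace X := Ba X
  have hm : ∀ i, Measurable fun x : X => (x : H) i := fun i => measurable_coord i
  have h1 : Measurable fun x : X => ∑' s : Σ n, (Fin n → Bool),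
      ENNReal.ofReal ((x : H) (Sum.inl s) ^ 2) := by
    apply Measurable.tsum
    intro s
    exact ((hm _).pow_const 2).ennreal_ofReal
  have h2 : Measurable fun x : X => Lim x := by
    apply Measurable.limsup
    intro n
    apply Finset.measurable_sum
    intro s _
    exact (((hm _).const_mul _).pow_const 2).ennreal_ofReal
  exact h1.add h2

theorem norm_sq (x : H) : ENNReal.ofReal (‖x‖ ^ 2) =
    ∑' s : Σ n, (Fin n → Bool), ENNReal.ofReal (x (Sum.inl s) ^ 2) +
      ∑' t : ℕ → Bool, ENNReal.ofReal (x (Sum.inr t) ^ 2) := by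
  have e2 : (2 : ENNReal).toReal = ((2 : ℕ) : ℝ) := by norm_num
  have h1 := lp.norm_rpow_eq_tsum (p := 2) (by norm_num) x
  have hs := (lp.memℓp x).summable (by norm_num)
  simp only [e2, Real.rpow_natCast] at h1 hs
  rw [h1, ENNReal.ofReal_tsum_of_nonneg (fun i => by positivity) hs]
  rw [ENNReal.summable.tsum_sum ENNReal.summable]
  simp only [Real.norm_eq_abs, sq_abs]

theorem Lim_eq (x : H) (hx : x ∈ A₀) :
    Lim x = ∑' t : ℕ → Bool, ENNReal.ofReal (x (Sum.inr t) ^ 2) := by
  classical
  unfold A₀ at hx
  rw [Finsupp.mem_span_range_iff_exists_finsupp] at hx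
  obtain ⟨c, rfl⟩ := hx
  -- the coordinates
  have c1 : ∀ n (s : Fin n → Bool), (c.sum fun t a => a • v t : H) (Sum.inl ⟨n, s⟩) =
      ∑ t ∈ c.support, if s = pre n t then c t * (1 / 2) ^ n else 0 := by
    intro n s
    rw [Finsupp.sum, lp.coeFn_sum, Finset.sum_apply]
    refine Finset.sum_congr rfl fun t _ => ?_
    rw [lp.coeFn_smul, Pi.smul_apply, v_inl, smul_eq_mul]
    split_ifs <;> simp
  have c2 : ∀ t, (c.sum fun t a => a • v t : H) (Sum.inr t) = c t := by
    intro t
    rw [Finsupp.sum, lp.coeFn_sum, Finset.sum_apply]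
    have : ∀ t' ∈ c.support, (c t' • v t' : H) (Sum.inr t) = if t = t' then c t' else 0 := by
      intro t' _
      rw [lp.coeFn_smul, Pi.smul_apply, v_inr, smul_eq_mul]
      split_ifs <;> simp
    rw [Finset.sum_congr rfl this, Finset.sum_ite_eq]
    split_ifs with h
    · rfl
    · exact (Finsupp.notMem_support_iff.1 h).symm
  -- the initial segments are eventually different
  have ev : ∀ᶠ n in atTop, Set.InjOn (pre n) (c.support : Set (ℕ → Bool)) := by
    have : ∀ᶠ n in atTop, ∀ p ∈ c.support ×ˢ c.support, pre n p.1 = pre n p.2 → p.1 = p.2 := by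
      rw [Filter.eventually_all_finset]
      rintro ⟨t, t'⟩ _
      by_cases htt : t = t'
      · exact Eventually.of_forall fun _ _ => htt
      · obtain ⟨i, hi⟩ := Function.ne_iff.1 htt
        filter_upwards [eventually_gt_atTop i] with n hn h
        exact absurd (congrFun h ⟨i, hn⟩) hi
    filter_upwards [this] with n hn t ht t' ht' h
    exact hn (t, t') (Finset.mem_product.2 ⟨ht, ht'⟩) h
  have ev2 : ∀ᶠ n : ℕ in atTop, ∑ s : Fin n → Bool,
      ENNReal.ofReal ((2 ^ n * (c.sum fun t a => a • v t : H) (Sum.inl ⟨n, s⟩)) ^ 2) =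
      ∑ t ∈ c.support, ENNReal.ofReal (c t ^ 2) := by
    filter_upwards [ev] with n hn
    have d1 : ∀ t ∈ c.support,
        (2 ^ n * (c.sum fun t a => a • v t : H) (Sum.inl ⟨n, pre n t⟩)) = c t := by
      intro t ht
      rw [c1, Finset.sum_eq_single t]
      · rw [if_pos rfl]
        have : (2 : ℝ) ^ n * (c t * (1 / 2) ^ n) = c t * (2 * (1 / 2)) ^ n := by
          rw [mul_pow]; ring
        rw [this]
        norm_num
      · intro t' ht' hne
        rw [if_neg]
        intro h
        exact hne (hn ht' ht h.symm)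
      · intro h
        exact absurd ht h
    have d2 : ∀ s : Fin n → Bool, s ∉ c.support.image (pre n) →
        (c.sum fun t a => a • v t : H) (Sum.inl ⟨n, s⟩) = 0 := by
      intro s hs
      rw [c1]
      refine Finset.sum_eq_zero fun t ht => ?_
      rw [if_neg]
      rintro rfl
      exact hs (Finset.mem_image_of_mem _ ht)
    rw [← Finset.sum_subset (Finset.subset_univ (c.support.image (pre n)))]
    · rw [Finset.sum_image hn]
      refine Finset.sum_congr rfl fun t ht => ?_
      rw [d1 t ht]
    · intro s _ hs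
      rw [d2 s hs]
      simp
  have r : ∑' t : ℕ → Bool, ENNReal.ofReal
      ((c.sum fun t a => a • v t : H) (Sum.inr t) ^ 2) =
      ∑ t ∈ c.support, ENNReal.ofReal (c t ^ 2) := by
    simp_rw [c2]
    refine tsum_eq_sum fun t ht => ?_
    rw [Finsupp.notMem_support_iff.1 ht]
    simp
  rw [r]
  unfold Lim
  rw [limsup_congr ev2]
  exact limsup_const _

theorem relativelyMeasurable : RelativelyMeasurable (fun x : X => ‖x‖) (A : Set X) := by
  unfold RelativelyMeasurable
  have h1 : Measurable[Ba X, borel ℝ] fun x : X => Real.sqrt (Q x).toReal := by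
    let _ : MeasurableSpace X := Ba X
    have := measurable_Q
    exact this.ennreal_toReal.sqrt
  have h2 : (fun x : {x : X // x ∈ (A : Set X)} => ‖(x : X)‖) =
      (fun x : X => Real.sqrt (Q x).toReal) ∘
        (Subtype.val : {x : X // x ∈ (A : Set X)} → X) := by
    funext x
    have h3 : Q ((x : X) : H) = ENNReal.ofReal (‖((x : X) : H)‖ ^ 2) := by
      have h5 : Lim ((x : X) : H) =
          ∑' t : ℕ → Bool, ENNReal.ofReal (((x : X) : H) (Sum.inr t) ^ 2) := Lim_eq _ x.2
      rw [norm_sq, ← h5]
      rfl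
    show ‖(x : X)‖ = Real.sqrt (Q ((x : X) : H)).toReal
    rw [h3, ENNReal.toReal_ofReal (by positivity), Real.sqrt_sq (norm_nonneg _)]
    rfl
  have h4 : Measurable[(Ba X).comap (Subtype.val : {x : X // x ∈ (A : Set X)} → X), Ba X]
      (Subtype.val : {x : X // x ∈ (A : Set X)} → X) := fun S hS => ⟨S, hS, rfl⟩
  have h5 : Measurable[(Ba X).comap (Subtype.val : {x : X // x ∈ (A : Set X)} → X), borel ℝ]
      ((fun x : X => Real.sqrt (Q x).toReal) ∘
        (Subtype.val : {x : X // x ∈ (A : Set X)} → X)) := h1.comp h4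
  rw [← h2] at h5
  exact h5

/-- **The negative answer, with a dense linear subspace.** -/
theorem result : ∃ (X : Type) (_ : NormedAddCommGroup X) (_ : NormedSpace ℝ X)
    (_ : CompleteSpace X) (A : Submodule ℝ X), Dense (A : Set X) ∧
      RelativelyMeasurable (fun x : X => ‖x‖) (A : Set X) ∧
      ¬ Measurable[Ba X, borel ℝ] fun x : X => ‖x‖ :=
  ⟨X, inferInstance, inferInstance, inferInstance, A, dense_A, relativelyMeasurable,
    not_measurable⟩

end Pool.Agent.Results.MP_51339e_an.DenseSubspace
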